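import Pool.Agent.Helper17.PP2.Defs

/-!
# Project ND (MP_fc6b1e_nt): natural density. Weights and abstract statements

The Abel weights `exp (-(nm b)/X)` are replaced by the weights `w (nm b / X)`, `w` a nonnegative finite
linear combination of the functions `exp (-(k+1) t)`. By the Weierstrass theorem and a bound for the
number of the `b` with `X < nm b ≤ (1 + δ) X` one gets the natural density.
-/

namespace Pool.Agent.Helper38.ND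

open Finset Pool.Agent.Helper17.PP Pool.Agent.Helper17.PP0 Pool.Agent.Helper17.PP2

/-- The weights. -/
structure WF (w : ℝ → ℝ) : Prop where
  nonneg : ∀ t, 0 ≤ t → 0 ≤ w t
  comb : ∃ (n : ℕ) (a : ℕ → ℝ), ∀ t, w t = ∑ k ∈ range n, a k * Real.exp (-((k + 1) * t))

/-- A weight is at most a multiple of `exp (-t)`. -/
theorem WF.dom {w : ℝ → ℝ} (hw : WF w) : ∃ C : ℝ, 0 < C ∧ ∀ t, 0 ≤ t → w t ≤ C * Real.exp (-t) := by
  obtain ⟨n, a, h⟩ := hw.comb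
  refine ⟨∑ k ∈ range n, |a k| + 1, by positivity, fun t ht ↦ ?_⟩
  rw [h, add_mul, Finset.sum_mul]
  have h1 : ∑ k ∈ range n, a k * Real.exp (-((k + 1) * t)) ≤
      ∑ k ∈ range n, |a k| * Real.exp (-t) := by
    refine Finset.sum_le_sum fun k _ ↦ ?_
    refine mul_le_mul (le_abs_self _) (Real.exp_le_exp.2 ?_) (Real.exp_pos _).le (abs_nonneg _)
    have : 0 ≤ (k : ℝ) * t := by positivity
    linarith
  have h2 : 0 ≤ 1 * Real.exp (-t) := by positivity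
  linarith

open Classical in
/-- **MTW**: `MT` for weights. -/
def MTW : Prop :=
  ∀ (p : ℕ) [Fact p.Prime] (B B₀ k U Λ C : Type) [Field k] [Fintype k] [Algebra (ZMod p) k]
    [AddCommGroup U] [Module k U] [Fintype U] [AddCommGroup Λ] [Module k Λ] [Fintype Λ]
    [AddCommGroup C] [Finite C] (S : Sys p B B₀ k U Λ C) (ψ : AddChar k ℂ)
    (ψ₁ : AddChar (ZMod p) ℂ) (g : ℝ → ℝ) (K : ℕ), S.Hyp ψ ψ₁ g K →
  ∀ w : ℝ → ℝ, WF w → ∀ ε : ℝ, 0 < ε → ∃ X₀ : ℝ, ∀ X : ℝ, X₀ ≤ X → ∀ P : Finset B,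
    ∑ b ∈ P.powerset with (S.Fam b ∧ S.Bad b), w (S.nm b / X) ≤
      (Fintype.card U / Fintype.card Λ) * (Fintype.card k / (p * (Fintype.card k - 1))) *
        ∑ b ∈ P.powerset with S.Fam b, w (S.nm b / X) + ε * (X * g X)

open Classical in
/-- **MT₀W**: `MT₀` for weights. -/
def MT₀W : Prop :=
  ∀ (p : ℕ) [Fact p.Prime] (B B₀ k U Λ C : Type) [Field k] [Fintype k] [Algebra (ZMod p) k]
    [AddCommGroup U] [Module k U] [Fintype U] [AddCommGroup Λ] [Module k Λ] [Fintype Λ]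
    [AddCommGroup C] [Finite C] (S : Sys p B B₀ k U Λ C) (ψ : AddChar k ℂ)
    (g : ℝ → ℝ) (K : ℕ), Hyp₀ S ψ g K →
  ∀ w : ℝ → ℝ, WF w → ∀ ε : ℝ, 0 < ε → ∃ X₀ : ℝ, ∀ X : ℝ, X₀ ≤ X → ∀ P : Finset B,
    ∑ b ∈ P.powerset with (S.Fam b ∧ S.Bad b), w (S.nm b / X) ≤
      (Fintype.card U / Fintype.card Λ) * (Fintype.card k / (Fintype.card k - 1)) *
        ∑ b ∈ P.powerset with S.Fam b, w (S.nm b / X) + ε * (X * g X)

open Classical in
/-- **MT₂W**: `MT₂` for weights. -/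
def MT₂W : Prop :=
  ∀ (p : ℕ) [Fact p.Prime] (B B₀ k U Λ C : Type) [Field k] [Fintype k] [Algebra (ZMod p) k]
    [AddCommGroup U] [Module k U] [Fintype U] [AddCommGroup Λ] [Module k Λ] [Fintype Λ]
    [AddCommGroup C] [Finite C] (S : Sys p B B₀ k U Λ C) (ψ : AddChar k ℂ) (G : B → Prop)
    (g : ℝ → ℝ) (K : ℕ), Hyp₂ S ψ G g K →
  ∀ w : ℝ → ℝ, WF w → ∀ ε : ℝ, 0 < ε → ∃ X₀ : ℝ, ∀ X : ℝ, X₀ ≤ X → ∀ P : Finset B,
    ∑ b ∈ P.powerset with (S.Fam b ∧ S.Bad b), w (S.nm b / X) ≤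
      (Fintype.card U / Fintype.card Λ) * (1 / (Fintype.card k - 1)) *
        ∑ b ∈ P.powerset with S.Fam b, w (S.nm b / X) + ε * (X * g X)

section

variable {p : ℕ} {B B₀ k U Λ C : Type} [Field k] [AddCommGroup U] [Module k U]
    [AddCommGroup Λ] [Module k Λ] [AddCommGroup C] (S : Sys p B B₀ k U Λ C)

/-- The bound for the primes in short intervals (upper bound of the correct order, with a constant which
does not depend on `δ`). -/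
def Brun (K : ℝ) : Prop :=
  ∀ δ : ℝ, 0 < δ → δ ≤ 1 → ∃ Y₀ : ℝ, ∀ Y : ℝ, Y₀ ≤ Y → ∀ F : Finset B,
    (∀ q ∈ F, Y < S.N q ∧ (S.N q : ℝ) ≤ (1 + δ) * Y) → ∑ q ∈ F, Real.log (S.N q) ≤ K * δ * Y

/-- The three properties of a system which are used for the classes, natural density. -/
def AnaN [Algebra (ZMod p) k] (g : ℝ → ℝ) (θ Kc c X₁ : ℝ) : Prop :=
  (∀ X : ℝ, 0 < X → {b | S.Fam b ∧ (S.nm b : ℝ) ≤ X}.Finite ∧
    ({b | S.Fam b ∧ (S.nm b : ℝ) ≤ X}.ncard : ℝ) ≤ Kc * (X * g X)) ∧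
  (∀ X : ℝ, 0 < X → X₁ ≤ X → c * (X * g X) ≤ {b | S.Fam b ∧ (S.nm b : ℝ) ≤ X}.ncard) ∧
  ∀ η : ℝ, 0 < η → ∃ X₀ : ℝ, ∀ X : ℝ, X₀ ≤ X →
    ({b | S.Fam b ∧ S.Bad b ∧ (S.nm b : ℝ) ≤ X}.ncard : ℝ) ≤
      θ * {b | S.Fam b ∧ (S.nm b : ℝ) ≤ X}.ncard + η * (X * g X)

end

end Pool.Agent.Helper38.ND
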