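import Pool.Agent.Helper38.ND.Defs
import Pool.Agent.Helper17.PP.GoalsC3
import Pool.Agent.Helper17.PP0.Goals
import Pool.Agent.Helper17.PP2.Goals
import Pool.Agent.Helper11.PP.GoalsE
import Pool.Agent.Helper88.LG.Goals

/-!
# Project ND (MP_fc6b1e_nt): natural density. Goals, abstract part

Every statement is a `def ... : Prop` with its complete proof in the docstring. `Q = |k|`,
`ρ = |U|/|Λ|`.
-/

namespace Pool.Agent.Helper38.ND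

open Finset Pool.Agent.Helper17.PP Pool.Agent.Helper17.PP0 Pool.Agent.Helper17.PP2
open Pool.Agent.Helper11.PP (Slow)

open Classical in
/-- The sum of the `cnt` over the block `j` with the weight `w`. -/
noncomputable def T1w {p : ℕ} {B B₀ k U Λ C : Type} [Field k] [Fintype k]
    [Algebra (ZMod p) k] [AddCommGroup U] [Module k U] [Fintype U] [AddCommGroup Λ] [Module k Λ]
    [AddCommGroup C] (S : Sys p B B₀ k U Λ C) (w : ℝ → ℝ) (E : ℕ) (P : Finset B) (X : ℝ)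
    (j : ℕ) : ℝ :=
  ∑ b ∈ P.powerset with S.Fam b, ∑ q ∈ b with (S.Wt E b q ∧ S.bl q = j),
    (S.cnt E b q : ℝ) * w (S.nm b / X)

open Classical in
/-- **W_COR** (the sums of the `cnt` with weights; the common part of `MTW`, `MT₀W`, `MT₂W`).

PROOF. This is the part of the proof of `fin₂` (`Pool/Agent/Helper17/PP2/Fin.lean`) from `hT1` to `hS2`, with the
weight `w (nm b/X)` in place of `exp (-(nm b/X))`. Let `w t = ∑_{k < n} a_k exp (-((k+1) t))`, `A_w = ∑ |a_k|`, and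
`w t ≤ C exp (-t)` (`WF.dom`). (1) `C_STJ` with an arbitrary nonnegative weight `W b` in place of
`exp (-(nm b/X))`: the proof `c_stj` in `Pool/Agent/Helper29/PP/CSTJ.lean` works word for word (it uses only
`0 ≤ exp ..`). (2) *LRG:* for `X ≥ n + 1`, `w (nm b/X) = ∑_k a_k exp (-(nm b/(X/(k+1))))`, so the norm of
the sum with weights in `Z_LRG` is at most `∑_k |a_k| K₁ (i+1)^K 2^(-min(i,j)/K) (X/(k+1)) g (X/(k+1))`, at most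
`K₁ K A_w (i+1)^K 2^(-min(i,j)/K) (X g X)` (`g_mono`). (3) *SML, MNS:* nonnegative sums, at most `C` times the sums
with `exp` (`nm b ≥ 0`, `X > 0`). (4) *MNB* (`step6` in `Helper17/PP/FinD.lean`): pointwise in `b`, for every
nonnegative weight. So the computation of `fin₂` (with `E = 2K(K+1)`, `A = 4K`, `C_SM1`, `C_SM2`, `C_SM3`, the
`j₁` there, `s = Nat.sqrt (lg X)`) gives the two bounds, with other constants in the error terms. -/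
def W_COR : Prop :=
  ∀ (p : ℕ) [Fact p.Prime] (B B₀ k U Λ C : Type) [Field k] [Fintype k] [Algebra (ZMod p) k]
    [AddCommGroup U] [Module k U] [Fintype U] [AddCommGroup Λ] [Module k Λ] [Fintype Λ]
    [AddCommGroup C] [Finite C] (S : Sys p B B₀ k U Λ C) (ψ : AddChar k ℂ)
    (g : ℝ → ℝ) (K : ℕ), Hyp₀ S ψ g K →
  ∀ w : ℝ → ℝ, WF w → ∀ ε : ℝ, 0 < ε → ∃ j₁ : ℕ, ∀ j₀, j₁ ≤ j₀ → ∃ X₀ : ℝ, ∀ X : ℝ, X₀ ≤ X →
  ∀ P : Finset B, (∀ q ∈ P, S.bl q ≤ th (2 * K * (K + 1)) (Nat.sqrt (lg X))) →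
    ∑ j ∈ Ico j₀ (Nat.sqrt (lg X)), T1w S w (2 * K * (K + 1)) P X j ≤ ε * (X * g X) ∧
    ∑ j ∈ Ico (Nat.sqrt (lg X)) (th (2 * K * (K + 1)) (Nat.sqrt (lg X)) + 1),
        T1w S w (2 * K * (K + 1)) P X j ≤
      (Fintype.card U / Fintype.card Λ : ℝ) * (Fintype.card k *
        ∑ b ∈ P.powerset with S.Fam b, w (S.nm b / X)) + ε * (X * g X)

/-- **W_MT0** (packet: `MT₀W` from `W_COR`).

PROOF. The assembly of `MT₀` (`Pool/Agent/Helper17/PP0/Fin.lean`, with `Asm.lean` there) with the weight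
`w (nm b/X)` in place of `exp (-(nm b/X))`: `step1`, `step4` (or their versions there) hold for every nonnegative
weight; the exceptional sets (`Z_EX0`, `Z_EX2`, `Z_EX5`, `Z_EX6`) have `w`-measure at most `C` times their
`exp`-measure; the sums over `j` of the `T1w` are bounded by `W_COR`. -/
def W_MT0 : Prop := W_COR → MT₀W

/-- **W_MT1** (packet: `MTW` from `W_COR`).

PROOF. The assembly of `MT` (`c_fin` in `Pool/Agent/Helper17/PP/FinD.lean`, with `FinA`-`FinC`, `AsmC.lean`) with the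
weight `w (nm b/X)` in place of `exp (-(nm b/X))`. `W_COR` needs `Hyp₀`: the fields of `Hyp₀` are among those of
`Sys.Hyp`. `step1` and `step4` hold for every nonnegative weight (`C_OSC` is a statement for fixed `b`), the
exceptional sets have `w`-measure at most `C` times their `exp`-measure, and the norms of the oscillating sums of
`C_OSB` with weights are at most `∑_k |a_k|` times those at `X/(k+1)`, which satisfy the same bounds as the one at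
`X` up to the factor `K` (`X/(k+1) ≥ 1`; `lg (X/(k+1)) ≤ lg X`, `min 1 (X/((k+1) 2^(i+j))) ≤ min 1 (X/2^(i+j))`,
`g_mono`). The sums over `j` of the `T1w` are bounded by `W_COR`. -/
def W_MT1 : Prop := W_COR → MTW

/-- **W_MT2** (packet: `MT₂W` from `W_COR`).

PROOF. The assembly of `MT₂` (`Pool/Agent/Helper17/PP2/FinA.lean`, `FinB.lean`, `Fin.lean`, `Asm.lean`) with the weight
`w (nm b/X)` in place of `exp (-(nm b/X))`. `step1`, `step4`, `step7` hold for every nonnegative weight (replace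
the weight in the definitions of `T2`, `A1`, `Z1`); the exceptional sets have `w`-measure at most `C` times their
`exp`-measure, and the same for `Z1` (`R_OSZ`); the norm of `A1` with weights is at most `∑_k |a_k|` times those at
`X/(k+1)`, which by `R_OSA` satisfy the same bound as the one at `X` up to the factor `K` (`X/(k+1) ≥ 1`;
`lg (X/(k+1)) ≤ lg X`, `min 1 (X/((k+1) 2^(i+j))) ≤ min 1 (X/2^(i+j))`, `g_mono`). The sums over `j` of the `T1w`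
are bounded by `W_COR`. -/
def W_MT2 : Prop := W_COR → MT₂W

open Classical in
/-- **N_SHT** (short intervals).

PROOF. By `ht` with `f = 1`: `∑_{b ⊆ P} e^(-nm b/Y) ≤ K Y min(1, Y) g(Y)` for all `Y > 0`. So for `Y ≥ 1`
(i) `#{r ⊆ P : nm r ≤ Y} ≤ e K Y g(Y)`; (ii) for `X ≥ 2`, `2^i ≤ X`: `#{r ⊆ P : 2^i ≤ nm r < 2^(i+1)} ≤
e² ∑ e^(-nm r/2^i) ≤ e² K 2^i g(2^i) ≤ e² K² 2^i g(X)`, so `∑_{r ⊆ P, nm r ≤ X} 1/nm r ≤ (lg X + 1) e² K² g(X) ≤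
3 e² K² g(X) log X` (`nm r ≥ 1`; `lg X + 1 ≤ log X/log 2 + 1 ≤ 3 log X`). Let `δ` be given, `Y₀ ≥ 1` as in `Brun` and
`C₁ = ∑_{q ∈ upto (2 Y₀)} log N q`. Let `𝓑 = {b ⊆ P : X < nm b ≤ (1+δ) X}`. Then `#𝓑 log X ≤ ∑_{b ∈ 𝓑} log nm b =
∑_{b ∈ 𝓑} ∑_{q ∈ b} log N q`. Write `b = {q} ∪ r` (`C_DEC` (1), or directly: the map `(b, q) ↦ (b.erase q, q)` is
injective on the pairs with `q ∈ b`): this is at most the sum over the `r ⊆ P` of the sum of `log N q` over the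
`q ∈ P` with `Y < N q ≤ (1+δ) Y`, `Y = X/nm r`. If `Y ≥ Y₀` the inner sum is at most `K' δ X/nm r`, and
`nm r ≤ X`. If `Y < Y₀` it is at most `C₁`, and it is empty unless `nm r ≤ X` (`N q ≥ 2` and
`N q ≤ 2 Y` give `Y ≥ 1`). So `#𝓑 log X ≤ K' δ X · 3 e² K² g(X) log X + C₁ e K X g(X)` (if `K' < 0` replace it by
`0`), and `#𝓑 ≤ K'' δ X g(X)` with `K'' = 3 e² K² |K'| + 1` for `log X ≥ C₁ e K/δ`. -/
def N_SHT : Prop :=
  ∀ (p : ℕ) [Fact p.Prime] (B B₀ k U Λ C : Type) [Field k] [Fintype k] [Algebra (ZMod p) k]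
    [AddCommGroup U] [Module k U] [Fintype U] [AddCommGroup Λ] [Module k Λ] [Fintype Λ]
    [AddCommGroup C] [Finite C] (S : Sys p B B₀ k U Λ C) (ψ : AddChar k ℂ)
    (g : ℝ → ℝ) (K : ℕ), Hyp₀ S ψ g K → ∀ K' : ℝ, Brun S K' →
  ∃ K'' : ℝ, 0 ≤ K'' ∧ ∀ δ : ℝ, 0 < δ → δ ≤ 1 → ∃ X₀ : ℝ, ∀ X : ℝ, X₀ ≤ X → ∀ P : Finset B,
    ((P.powerset.filter fun b ↦ X < S.nm b ∧ (S.nm b : ℝ) ≤ (1 + δ) * X).card : ℝ) ≤
      K'' * δ * (X * g X)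

/-- **N_POL** (Weierstrass).

PROOF. Let `f(x) = 0` for `x ≤ e^(-(1+δ))`, `f(x) = 1/x` for `x ≥ e^(-1)`, and `f(x) = l(x)/x` between, `l` the affine
function with `l(e^(-(1+δ))) = 0`, `l(e^(-1)) = 1`; `f` is continuous on `[0, 1]`. By the Weierstrass theorem
(`exists_polynomial_near_continuousMap`, `exists_polynomial_near_of_continuousOn`) there is a real polynomial
`R₀` with `|R₀ - (f + ε/2)| < ε/2` on `[0, 1]`, so `f ≤ R₀ ≤ f + ε` on `[0, 1]`. Let `w t = x R₀(x)` with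
`x = e^(-t)`: `w t = ∑_k R₀.coeff k e^(-(k+1) t)` for all `t`. For `t ≥ 0`, `x ∈ (0, 1]`: `w t ≥ x f(x) ≥ 0`, and
`≥ 1` if `t ≤ 1`; `w t ≤ x f(x) + ε x`, `x f(x) ≤ 1`, and `x f(x) = 0` if `t > 1 + δ`. -/
def N_POL : Prop :=
  ∀ δ ε : ℝ, 0 < δ → 0 < ε → ∃ w : ℝ → ℝ, WF w ∧ (∀ t, 0 ≤ t → t ≤ 1 → 1 ≤ w t) ∧
    (∀ t, 0 ≤ t → t ≤ 1 + δ → w t ≤ 1 + ε * Real.exp (-t)) ∧
    ∀ t, 1 + δ < t → w t ≤ ε * Real.exp (-t)

open Classical in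
/-- **N_ANA** (from weights to the natural density).

PROOF (from `N_SHT`, `N_POL`). If `nm b ≤ X` then `N q ≤ X` for all `q ∈ b` (`N q` divides `nm b`), so `b ⊆ upto X`:
the sets `{Fam b, nm b ≤ X}` are finite, contained in `(upto X).powerset`. *First property:* by `ht` with `f = 1`
the number of the `b ⊆ upto X` with `nm b ≤ X` is at most `e K X min(1, X) g(X) ≤ e K (X g X)`. *Second property:*
compare the lemmas `fin_le`, `sum_le` in `Pool/Agent/Helper44/PP/DABS.lean`. Let `A(X) = #{Fam b, nm b ≤ X}`. For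
`Y ≥ max(X₁, 1)`, `t ≥ 1` and `P` given by the hypothesis for `Y`: `c Y g(Y) ≤ A(t Y) + e^(-t/2)
∑_{b ⊆ P} e^(-nm b/(2Y)) ≤ A(t Y) + e^(-t/2) K 2Y g(2Y)`, `g(2Y) ≤ K₀ g(Y)`. Choose `t = 2^l` with
`2 K K₀ e^(-t/2) ≤ c/2`: `A(t Y) ≥ (c/2) Y g(Y)`. For `X = t Y`: `g(X) ≤ K₀^l g(Y)` (`Slow.dbl`, `Y ≥ 1`), so
`A(X) ≥ c' X g(X)`, `c' = c/(2 t K₀^l)` (`K₀ ≥ 1` because `1 ≤ g ≤ K₀ g`). *Third property:* let `η > 0`, `K''` as in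
`N_SHT`, `δ ≤ 1` with `θ K'' δ ≤ η/4`, `ε₁` with `θ ε₁ K ≤ η/4`, `w` given by `N_POL` for `δ`, `ε₁`, and `X ≥ 1` so
large that `N_SHT` holds for `δ` and the hypothesis for `w`, `ε = η/4`. Take `P = upto X`:
`#{Fam, Bad, nm b ≤ X} ≤ ∑_{b ⊆ P, Fam, Bad} w(nm b/X) ≤ θ ∑_{b ⊆ P, Fam} w(nm b/X) + (η/4) X g(X)` and
`∑_{b ⊆ P, Fam} w(nm b/X) ≤ #{b ⊆ P, Fam, nm b ≤ (1+δ) X} + ε₁ ∑_{b ⊆ P} e^(-nm b/X) ≤
A(X) + #{b ⊆ P : X < nm b ≤ (1+δ) X} + ε₁ K X g(X) ≤ A(X) + K'' δ X g(X) + ε₁ K X g(X)`. -/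
def N_ANA : Prop :=
  ∀ (p : ℕ) [Fact p.Prime] (B B₀ k U Λ C : Type) [Field k] [Fintype k] [Algebra (ZMod p) k]
    [AddCommGroup U] [Module k U] [Fintype U] [AddCommGroup Λ] [Module k Λ] [Fintype Λ]
    [AddCommGroup C] [Finite C] (S : Sys p B B₀ k U Λ C) (ψ : AddChar k ℂ)
    (g : ℝ → ℝ) (K : ℕ), Hyp₀ S ψ g K → ∀ K' : ℝ, Brun S K' → ∀ K₀ : ℝ, Slow g K₀ →
  ∀ c X₁ : ℝ, 0 < c → (∀ X : ℝ, X₁ ≤ X → ∃ P : Finset B, c * (X * g X) ≤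
      ∑ b ∈ P.powerset with S.Fam b, Real.exp (-(S.nm b / X))) →
  ∀ θ : ℝ, 0 ≤ θ → (∀ w : ℝ → ℝ, WF w → ∀ ε : ℝ, 0 < ε → ∃ X₀ : ℝ, ∀ X : ℝ, X₀ ≤ X →
    ∀ P : Finset B, ∑ b ∈ P.powerset with (S.Fam b ∧ S.Bad b), w (S.nm b / X) ≤
      θ * ∑ b ∈ P.powerset with S.Fam b, w (S.nm b / X) + ε * (X * g X)) →
  ∃ Kc c' X₁' : ℝ, 0 < c' ∧ AnaN S g θ Kc c' X₁'

open NumberField IsDedekindDomain

/-- **N_BRU** (rational primes in short intervals).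

PROOF (from `StmtBG`, proved: `Pool.Agent.Helper27.LG.bg`). Take `d = 1`: for `N ≥ 2` the number of the primes in
`(b, b + N]` is at most `C N/log N`. Let `δ` be given, `Y` large (`δ Y ≥ √Y + 4`, so `Y ≥ 4`), `b = ⌊Y⌋`,
`N = ⌈δ Y⌉ + 1`: `(Y, (1+δ) Y] ∩ ℕ ⊆ (b, b + N]`, `N ≤ 2 δ Y`, `N ≥ √Y`. `x/log x` is increasing for
`x ≥ e`, or directly: `N/log N ≤ 2 δ Y/log √Y = 4 δ Y/log Y`. Every prime in the interval has
`log ℓ ≤ log (2 Y) ≤ 2 log Y`. So the sum is at most `8 C δ Y`. -/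
def N_BRU : Prop :=
  Pool.Agent.Helper88.LG.StmtBG → ∃ C : ℝ, 0 < C ∧ ∀ δ : ℝ, 0 < δ → δ ≤ 1 → ∃ Y₀ : ℝ, ∀ Y : ℝ,
    Y₀ ≤ Y → ∀ F : Finset ℕ, (∀ l ∈ F, l.Prime ∧ Y < l ∧ (l : ℝ) ≤ (1 + δ) * Y) →
    ∑ l ∈ F, Real.log l ≤ C * δ * Y

/-- **N_BRK** (the systems of the labelled primes of a number field satisfy `Brun`).

PROOF (from the conclusion of `N_BRU`). Let `d = [K : ℚ]`. To a prime `v` of `K` associate the rational prime `ℓ`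
below, `N v = ℓ^f`, `f ≥ 1`; there are at most `d` primes `v` above `ℓ`, and at most `p - 1` labels for every
`v`. The sum over the labelled primes `q ∈ F` of degree `f = 1` is at most `d (p-1)` times the sum of `log ℓ` over the
primes `ℓ ∈ (Y, (1+δ) Y]`. If `f ≥ 2` then `ℓ ≤ √(2Y)`, so there are at most `d (p-1) √(2Y)` such `q`, each with
`log N q ≤ log (2 Y)`, and `√(2Y) log (2Y) ≤ δ Y` for large `Y`. So `Brun` holds with `K' = d (p-1) (C + 1)`. -/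
def N_BRK : Prop :=
  (∃ C : ℝ, 0 < C ∧ ∀ δ : ℝ, 0 < δ → δ ≤ 1 → ∃ Y₀ : ℝ, ∀ Y : ℝ,
    Y₀ ≤ Y → ∀ F : Finset ℕ, (∀ l ∈ F, l.Prime ∧ Y < l ∧ (l : ℝ) ≤ (1 + δ) * Y) →
    ∑ l ∈ F, Real.log l ≤ C * δ * Y) →
  ∀ (p : ℕ) [Fact p.Prime] (K : Type) [Field K] [NumberField K],
  ∃ K' : ℝ, ∀ (V : Set (HeightOneSpectrum (𝓞 K))) (B₀ k U Λ C : Type) [Field k]
    [AddCommGroup U] [Module k U] [AddCommGroup Λ] [Module k Λ]
    [AddCommGroup C] (S : Sys p {q : HeightOneSpectrum (𝓞 K) × (ZMod p)ˣ // q.1 ∈ V} B₀ k U Λ C),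
    (∀ q, S.N q = Ideal.absNorm q.1.1.asIdeal) → Brun S K'

/-- **N_ABS** (from finitely many families to one; the natural density version of `D_ABS`).

PROOF. Compare `D_ABS` (`Helper11/PP/GoalsE.lean`; proof in `Pool/Agent/Helper44/PP/DABS.lean`). Let
`A_τ(X) = #{b ∈ β τ : n(b) ≤ X}`, `A(X) = #{i : f(i) ≤ X}`, `h` the number of the elements which are not in the range
of `Φ`. `f(i) ≤ X` iff `n(b) ≤ X/F_τ` for `Φ i = (τ, b)`. So `∑_τ A_τ(X/F_τ) - h ≤ A(X) ≤ ∑_τ A_τ(X/F_τ)` and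
the sets are finite. `K ≥ 1` (`1 ≤ g X ≤ K g X`). Fix `τ` and `l` with `F_τ ≤ 2^l`: for `X ≥ 2^l max(X₁, 1)`,
`A(X) ≥ c (X/F_τ) g(X/F_τ) - h`, and `g(X) ≤ K^l g(X/2^l) ≤ K^(l+1) g(X/F_τ)`, so `A(X) ≥ 2 c' X g(X) - h ≥
c' X g(X)` for some `c' > 0` and large `X` (`X g(X) ≥ X → ∞`). `A(2X) ≤ ∑_τ A_τ(2X) ≤ |𝒯| 2 K X g(2X) ≤
2 K² |𝒯| X g(X)`: doubling. `ι` is infinite since `A(X) → ∞`. For `η > 0`, `X` large (depending on `η'`):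
`#{i ∈ Bd, f(i) ≤ X} ≤ ∑_τ #{b ∈ bad τ, n(b) ≤ X/F_τ} ≤ ∑_τ (θ A_τ(X/F_τ) + η' (X/F_τ) g(X/F_τ)) ≤
θ (A(X) + h) + η' |𝒯| K X g(X)`; choose `η'` with `η' |𝒯| K ≤ η c'/2`, and `θ h ≤ (η c'/2) X` for large `X`. -/
def N_ABS : Prop :=
  ∀ (𝒯 : Type) [Fintype 𝒯] [Nonempty 𝒯] (β : 𝒯 → Type) (n : ∀ τ, β τ → ℕ)
    (bad : ∀ τ, Set (β τ)) (F : 𝒯 → ℕ) (g : ℝ → ℝ) (K c X₁ θ : ℝ), (∀ τ, 1 ≤ F τ) → 0 < c →
    0 ≤ θ → Slow g K →
    (∀ τ, ∀ X : ℝ, 0 < X → {b : β τ | (n τ b : ℝ) ≤ X}.Finite ∧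
      ({b : β τ | (n τ b : ℝ) ≤ X}.ncard : ℝ) ≤ K * (X * g X)) →
    (∀ τ, ∀ X : ℝ, 0 < X → X₁ ≤ X → c * (X * g X) ≤ {b : β τ | (n τ b : ℝ) ≤ X}.ncard) →
    (∀ η : ℝ, 0 < η → ∃ X₀ : ℝ, ∀ τ, ∀ X : ℝ, X₀ ≤ X →
      ({b : β τ | b ∈ bad τ ∧ (n τ b : ℝ) ≤ X}.ncard : ℝ) ≤
        θ * {b : β τ | (n τ b : ℝ) ≤ X}.ncard + η * (X * g X)) →
  ∀ (ι : Type) (f : ι → ℕ) (Bd : Set ι) (Φ : ι → Σ τ, β τ), Function.Injective Φ →
    (Set.range Φ)ᶜ.Finite → (∀ i, f i = F (Φ i).1 * n (Φ i).1 (Φ i).2) →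
    (∀ i ∈ Bd, (Φ i).2 ∈ bad (Φ i).1) →
  (∀ X : ℝ, {i | (f i : ℝ) ≤ X}.Finite) ∧
  (∃ C X₀ : ℝ, 0 < X₀ ∧ ∀ X : ℝ, X₀ ≤ X →
    ({i | (f i : ℝ) ≤ 2 * X}.ncard : ℝ) ≤ C * {i | (f i : ℝ) ≤ X}.ncard) ∧
  Infinite ι ∧
  ∀ η : ℝ, 0 < η → ∀ᶠ X : ℝ in Filter.atTop,
    ({i | i ∈ Bd ∧ (f i : ℝ) ≤ X}.ncard : ℝ) ≤ (θ + η) * {i | (f i : ℝ) ≤ X}.ncard

end Pool.Agent.Helper38.ND
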