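import Pool.Agent.Helper38.ND.GoalsC
import Pool.Agent.Helper36.ND.WCOR
import Pool.Agent.Helper91.ND.WMT1
import Pool.Agent.Helper85.ND.WMT2
import Pool.Agent.Helper14.ND.WMT0
import Pool.Agent.Helper30.ND.NSHT
import Pool.Agent.Helper61.ND.NPOL
import Pool.Agent.Helper9.ND.NANA
import Pool.Agent.Helper93.ND.NBRU
import Pool.Agent.Helper79.ND.NBRK
import Pool.Agent.Helper50.ND.NABS
import Pool.Agent.Helper26.ND.NANH
import Pool.Agent.Helper86.ND.NMOMW
import Pool.Agent.Helper98.ND.NMB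
import Pool.Agent.Helper96.ND.NASM
import Pool.Agent.Helper17.PB.HYP
import Pool.Agent.Helper76.PB.Asm
import Pool.Agent.Helper94.PB.VEXB
import Pool.Agent.Helper94.PB.VEXT

/-! Project ND: the moment theorems in class form, natural density, without hypotheses. -/

namespace Pool.Agent.Helper38.ND

theorem mtw : MTW := Pool.Agent.Helper91.ND.w_mt1 Pool.Agent.Helper36.ND.w_cor

theorem mt0w : MT₀W := Pool.Agent.Helper14.ND.w_mt0 Pool.Agent.Helper36.ND.w_cor

theorem mt2w : MT₂W := Pool.Agent.Helper85.ND.w_mt2 Pool.Agent.Helper36.ND.w_cor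

theorem n_ana : N_ANA := Pool.Agent.Helper9.ND.n_ana Pool.Agent.Helper30.ND.n_sht
  Pool.Agent.Helper61.ND.n_pol

theorem momb_all : MOMBN ∧ MOMB1N :=
  Pool.Agent.Helper98.ND.n_mb Pool.Agent.Helper86.ND.n_momw Pool.Agent.Helper50.ND.n_abs
    Pool.Agent.Helper26.ND.n_anh n_ana Pool.Agent.Helper93.ND.n_bru Pool.Agent.Helper79.ND.n_brk
    mtw mt0w (Pool.Agent.Helper17.PB.v_hyp Pool.Agent.Helper76.PB.a_smn Pool.Agent.Helper76.PB.a_kum)
    (Pool.Agent.Helper17.PB.v_hyp0 Pool.Agent.Helper76.PB.a_smn Pool.Agent.Helper76.PB.a_kum)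
    Pool.Agent.Helper94.PB.v_exb Pool.Agent.Helper94.PB.v_ext Pool.Agent.Helper76.PB.a_aln'
    Pool.Agent.Helper76.PB.a_ext1

end Pool.Agent.Helper38.ND
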