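import Pool.Agent.Helper38.ND.Goals
import Pool.Agent.Helper11.PB.Goals2
import Pool.Agent.Helper76.PB.GoalsV
import Pool.Agent.Helper77.PPB.Goals2

/-!
# Project ND (MP_fc6b1e_nt): natural density. Goals, class level and final assembly

Every statement is a `def ... : Prop` with its complete proof in the docstring.
-/

set_option autoImplicit false

namespace Pool.Agent.Helper38.ND

open NumberField Polynomial Module IsDedekindDomain
open Pool.Agent.Helper51.RP Pool.Agent.Helper42.RD Pool.Agent.Helper42.PP Pool.Agent.Helper42.PP1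
open Pool.Agent.Helper51.SigLeo Pool.Agent.Helper11.LE Pool.Agent.Helper11.PP
open Pool.Agent.Helper17.PP (Sys)
open Pool.Agent.Helper17.PP0 (Hyp₀)
open Pool.Agent.Helper42.PB Pool.Agent.Helper76.PB
open Pool.Agent.Helper11.PB (BdB V_HYP V_HYP0 M_EXT1)
open Pool.Agent.Helper77.PPB (ChN ChF)
open Pool.Agent.Helper38.FD (Chr CutsOut)

/-- The number of the classes of `A` with `condC ≤ X`. -/
noncomputable def cC {p : ℕ} (K : Type) {K₁ : Type} [Field K] [NumberField K] [Field K₁]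
    [NumberField K₁] [Algebra K K₁] (A : Set (ClP p K₁)) (X : ℝ) : ℝ :=
  {c | c ∈ A ∧ (condC K c : ℝ) ≤ X}.ncard

/-- The conclusion of the moment theorems for the set `Bd` of bad classes, with the constant `θ`, natural
density version of `PB.MomC`. -/
def MomN (p : ℕ) (K : Type) [Field K] [NumberField K] {K₁ : Type} [Field K₁] [NumberField K₁]
    [Algebra K K₁] (ε : K₁) (Bd : Set (ClP p K₁)) (θ : ℝ) : Prop :=
  (∀ X : ℝ, {c | c ∈ ASet p K ε ∧ (condC K c : ℝ) ≤ X}.Finite) ∧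
  (∃ C X₀ : ℝ, 0 < X₀ ∧ ∀ X : ℝ, X₀ ≤ X → cC K (ASet p K ε) (2 * X) ≤ C * cC K (ASet p K ε) X) ∧
  (ASet p K ε).Infinite ∧
  ∀ η : ℝ, 0 < η → ∀ᶠ X : ℝ in Filter.atTop,
    cC K (ASet p K ε ∩ Bd) X ≤ (θ + η) * cC K (ASet p K ε) X

/-- **N_MOMW** (from the labels to the classes, general form; natural density version of the theorem `momW` in
`Pool/Agent/Helper11/PB/Gen.lean`).

PROOF. The proofs of `core` (`Pool/Agent/Helper11/PP/Core.lean`) and of `momW`, with `N_ABS` in place of `D_ABS` and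
with the three properties of `AnaN` in place of those of `Ana`: in `core` let `ha1`, `ha2`, `ha3` be the
properties for the counting functions of `{b : Finset B.LP // Fam τ b}` (the sets `{b // Fam b}` and `{b | Fam b}`
with `nm b ≤ X` are in bijection; `nm b = ∏ q ∈ b, absNorm q.1.1.asIdeal`), the conclusion is `MomN`. The maps `Φ`,
the conductors etc. are unchanged. The inputs `V_LAB`, `V_SEL`, `D_NLS`, `D_CND`, `D_TAU` are proved
(`Helper42.PB.v_lab`, `v_sel`, see `Gen.lean` and `MOMB.lean`). -/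
def N_MOMW : Prop :=
  N_ABS → ∀ (p : ℕ) [Fact p.Prime] (L : IwasawaLog p ℂ_[p]) (K M K₁ M₁ J M₂ : Type) [Field K]
    [NumberField K] [Field M] [NumberField M] [Field K₁] [NumberField K₁] [Field M₁]
    [NumberField M₁] [Field J] [NumberField J] [Field M₂] [NumberField M₂] [Algebra K M]
    [Algebra K K₁] [Algebra K M₁] [Algebra M M₁] [Algebra K₁ M₁] [Algebra K J] [Algebra K M₂]
    [Algebra M M₂] [Algebra K₁ M₂] [Algebra M₁ M₂] [Algebra J M₂] (ε : K₁) (δ : M ≃ₐ[K] M)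
    (P : (ZMod p)[X]) [Fact (Irreducible P)] (a₀ : M₂ˣ), SitB p K M K₁ M₁ J M₂ ε δ P a₀ →
  ∀ (T : Set (K →+* ℂ_[p])) (B : Base p K M K₁ M₁ ε δ P) (D : BaseB B a₀) (g : ℝ → ℝ) (K₀ : ℝ),
    Slow g K₀ → ∀ θ : ℝ, 0 ≤ θ → ∀ n : ℕ,
    (∀ aτ : K₁ˣ, OmType p K ε (aτ : K₁) → NiceU p aτ →
      ∃ (E : TauB n B a₀ L T aτ) (Kc c X₁ : ℝ), 0 < c ∧
        AnaN (sysB B E.toTauF (Spl M₂ B.S) D.s0 aτ) g θ Kc c X₁) →
  MomN p K ε (BdB L T P δ a₀) θ

/-- **N_ANH** (`AnaN` for the systems `sysB` from `Hyp₀` and a weighted moment theorem).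

PROOF. `N_ANA` with `Brun` given by `N_BRK` (the type of the labelled primes of `B` is
`{q : HeightOneSpectrum (𝓞 K) × (ZMod p)ˣ // q.1 ∈ B.calP}`, `B.LP`; `N q = absNorm q.1.1.asIdeal` by definition of
`sysB`), the hypothesis of `N_BRK` by `N_BRU` and `Pool.Agent.Helper27.LG.bg`. -/
def N_ANH : Prop :=
  N_ANA → N_BRU → N_BRK → ∀ (p : ℕ) [Fact p.Prime] (K M K₁ M₁ : Type) [Field K] [NumberField K]
    [Field M] [NumberField M] [Field K₁] [NumberField K₁] [Field M₁] [NumberField M₁]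
    [Algebra K M] [Algebra K K₁] [Algebra K M₁] [Algebra M M₁] [Algebra K₁ M₁]
    (ε : K₁) (δ : M ≃ₐ[K] M) (P : (ZMod p)[X]) [Fact (Irreducible P)] [Fintype (AdjoinRoot P)]
    (B : Base p K M K₁ M₁ ε δ P) (n : ℕ) (E : TauF n B) (V : Set (HeightOneSpectrum (𝓞 K)))
    (s0 : HeightOneSpectrum (𝓞 K) → ZMod p) (aτ : K₁ˣ)
    (ψ : AddChar (AdjoinRoot P) ℂ) (g : ℝ → ℝ) (K' : ℕ), Hyp₀ (sysB B E V s0 aτ) ψ g K' →
  ∀ K₀ : ℝ, Slow g K₀ → ∀ c X₁ : ℝ, 0 < c → (∀ X : ℝ, X₁ ≤ X → ∃ Q : Finset B.LP,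
    (open Classical in c * (X * g X) ≤ ∑ b ∈ Q.powerset with (sysB B E V s0 aτ).Fam b,
      Real.exp (-((sysB B E V s0 aτ).nm b / X)))) →
  ∀ θ : ℝ, 0 ≤ θ → (∀ w : ℝ → ℝ, WF w → ∀ ε' : ℝ, 0 < ε' → ∃ X₀ : ℝ, ∀ X : ℝ, X₀ ≤ X →
    ∀ Q : Finset B.LP, (open Classical in
      ∑ b ∈ Q.powerset with ((sysB B E V s0 aτ).Fam b ∧ (sysB B E V s0 aτ).Bad b),
        w ((sysB B E V s0 aτ).nm b / X) ≤
      θ * ∑ b ∈ Q.powerset with (sysB B E V s0 aτ).Fam b, w ((sysB B E V s0 aτ).nm b / X) +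
        ε' * (X * g X))) →
  ∃ Kc c' X₁' : ℝ, 0 < c' ∧ AnaN (sysB B E V s0 aτ) g θ Kc c' X₁'

/-- **MOMBN**: natural density version of `PB.MOMB`. -/
def MOMBN : Prop :=
  ∀ (p : ℕ) [Fact p.Prime] (L : IwasawaLog p ℂ_[p]) (K M K₁ M₁ J M₂ : Type) [Field K]
    [NumberField K] [IsTotallyComplex K] [Field M] [NumberField M] [Field K₁] [NumberField K₁]
    [Field M₁] [NumberField M₁] [Field J] [NumberField J] [Field M₂] [NumberField M₂] [Algebra K M]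
    [Algebra K K₁] [Algebra K M₁] [Algebra M M₁] [Algebra K₁ M₁] [Algebra K J] [Algebra K M₂]
    [Algebra M M₂] [Algebra K₁ M₂] [Algebra M₁ M₂] [Algebra J M₂] (ε : K₁) (δ : M ≃ₐ[K] M)
    (P : (ZMod p)[X]) (a₀ : M₂ˣ), SitBs p K M K₁ M₁ J M₂ ε δ P a₀ → NTV p M₁ ε δ P →
    1 < finrank K₁ M₂ →
  ∀ (m : ℕ) (ζ : ℂ_[p]) (Φ : ℤ_[p][X]), PhiData p m ζ Φ P → finrank K M = m → TorOK P δ →
  ∀ T : Set (K →+* ℂ_[p]), PlaceClosed T → finrank ℚ K = 2 * T.ncard →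
  MomN p K ε (BdB L T P δ a₀)
    ((p : ℝ) ^ P.natDegree / (p * ((p : ℝ) ^ P.natDegree - 1)))

/-- **MOMB1N**: natural density version of `PB.MOMB1A`. -/
def MOMB1N : Prop :=
  ∀ (p : ℕ) [Fact p.Prime] (L : IwasawaLog p ℂ_[p]) (K K₁ J M₂ : Type) [Field K]
    [NumberField K] [Field K₁] [NumberField K₁] [Field J] [NumberField J] [Field M₂]
    [NumberField M₂] [Algebra K K₁] [Algebra K J] [Algebra K M₂] [Algebra K₁ M₂] [Algebra J M₂]
    (ε : K₁) (a₀ : M₂ˣ),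
    SitBs p K K K₁ K₁ J M₂ ε (1 : K ≃ₐ[K] K) (X - 1) a₀ → (¬ ∃ ξ : K, IsPrimitiveRoot ξ p) →
  ∀ T : Set (K →+* ℂ_[p]), PlaceClosed T → Units.rank K + 1 ≤ T.ncard →
  MomN p K ε (BdB L T (X - 1 : (ZMod p)[X]) (1 : K ≃ₐ[K] K) a₀)
    ((p : ℝ) ^ (Units.rank K + 1) / (p ^ T.ncard * (p - 1)))

/-- **N_MB** (the moment theorems in class form, natural density).

PROOF. The proofs `momb`, `momb1A` in `Pool/Agent/Helper11/PB/MOMB.lean` with `N_MOMW` in place of `momW` and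
`N_ANH` in place of `ana_of_hyp`, `ana_of_hyp0`: in `momb` the analytic hypothesis is `Sys.Hyp` (its fields
include those of `Hyp₀`) and the weighted moment theorem is `MTW`, with `(|U|/|Λ|) (Q/(p (Q - 1))) ≤ θ` as in
`ana_of_hyp` (the weighted sums are `≥ 0`); in the case `[J : K] = 1` of `momb1A` it is `MT₀W`. -/
def N_MB : Prop :=
  N_MOMW → N_ABS → N_ANH → N_ANA → N_BRU → N_BRK → MTW → MT₀W → V_HYP → V_HYP0 → V_EXB → V_EXT →
    V_ALN' → M_EXT1 → MOMBN ∧ MOMB1N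

/-- The number of the `x = (N, φ)` in `A` with `cond K N ≤ X`. -/
noncomputable def cnt2 {p : ℕ} [Fact p.Prime] {K : Type} [Field K] [NumberField K]
    (A : Set (IntermediateField K (AlgebraicClosure K) × Chr K (AlgebraicClosure K) ℂ_[p]))
    (X : ℕ) : ℝ :=
  {x | x ∈ A ∧ cond K x.1 ≤ X}.ncard

/-- **N_ASM** (from classes to characters, natural density; compare `PPB.B_ASM`). `Bd r` are sets of classes
with constants `θ r`, `G` is a set of characters, `Z` a finite set of classes; the classes `c ∈ ASet`, `c ∉ Z`,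
whose character is not in `G` are in some `Bd r`.

PROOF (from `PP.D_CMP`, `PP.D_BFN`, both proved; compare `Pool/Agent/Helper81/PPB/BASM.lean`). The map
`c ↦ (nf c, cf c)` is a bijection from `ASet` to `ChF` and from `BSet` to `ChN`, and `cond K (nf c) = condC K c` for
`c ∈ ASet`. Let `A(X) = #{c ∈ ASet : condC ≤ X} = #{x ∈ ChF : cond ≤ X}`, which tends to infinity (`ASet` is
infinite). (1) `D_BFN`, and for every `N` there are finitely many `φ` (`{c ∈ BSet : nf c = N}` has `p - 1` elements, so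
it is finite; the bijection). (2) The number of the `x ∈ ChF`, `x ∉ G`, `cond ≤ X`, is at most `#Z + ∑_r #{c ∈ ASet ∩
Bd r : condC ≤ X} ≤ #Z + ∑_r (θ r + η') A(X)`, `η' = η/(n + 1)`, and `#Z ≤ η' A(X)` for large `X`. (3) If `θ = ∑ θ r < 1`
take `η = (1 - θ)/2`: `#{x ∈ ChF ∩ G : cond ≤ X} ≥ (1 - θ - η) A(X)` for large `X`;
`#{x ∈ ChN : cond ≤ X} = (p - 1) #{N ∈ CycN : cond ≤ X} ≤ (p - 1) C (#{N ∈ CycF : cond ≤ C X} + 1)` by `D_CMP`, and
`#{N ∈ CycF : cond ≤ C X} ≤ A(C X) ≤ C' A(X)` for large `X` by the doubling property; `1 ≤ A(X)`. -/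
def N_ASM : Prop :=
  ∀ (p : ℕ) [Fact p.Prime] (K K₁ : Type) [Field K] [NumberField K] [Field K₁] [NumberField K₁]
    [Algebra K K₁] (ε : K₁) (nf : ClP p K₁ → IntermediateField K (AlgebraicClosure K))
    (cf : ClP p K₁ → Chr K (AlgebraicClosure K) ℂ_[p]),
    (∀ c ∈ BSet p K ε, nf c ∈ CycN p K) →
    (∀ N ∈ CycN p K, {c | c ∈ BSet p K ε ∧ nf c = N}.ncard = p - 1) →
    (∀ c ∈ BSet p K ε, (c ∈ ASet p K ε ↔ nf c ∈ CycF p K)) →
    (∀ c ∈ ASet p K ε, cond K (nf c) = condC K c) →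
    (∀ c ∈ BSet p K ε, CutsOut (cf c) (nf c)) →
    (∀ N ∈ CycN p K, ∀ φ : Chr K (AlgebraicClosure K) ℂ_[p], CutsOut φ N →
      ∃! c, c ∈ BSet p K ε ∧ nf c = N ∧ cf c = φ) →
  ∀ (n : ℕ) (Bd : Fin n → Set (ClP p K₁))
    (G : Set (IntermediateField K (AlgebraicClosure K) × Chr K (AlgebraicClosure K) ℂ_[p]))
    (Z : Set (ClP p K₁)) (θ : Fin n → ℝ), (∀ r, 0 ≤ θ r) → Z.Finite →
    (∀ c ∈ ASet p K ε, c ∉ Z → (nf c, cf c) ∉ G → ∃ r, c ∈ Bd r) →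
    (∀ r, MomN p K ε (Bd r) (θ r)) → MomN p K ε ∅ 0 →
  (∀ X : ℕ, {x | x ∈ ChN p K ∧ cond K x.1 ≤ X}.Finite) ∧
  (∀ η : ℝ, 0 < η → ∀ᶠ X : ℕ in Filter.atTop,
    cnt2 {x | x ∈ ChF p K ∧ x ∉ G} X ≤ (∑ r, θ r + η) * cnt2 (ChF p K) X) ∧
  (∑ r, θ r < 1 → ∃ c : ℝ, 0 < c ∧ ∀ᶠ X : ℕ in Filter.atTop,
    0 < cnt2 (ChN p K) X ∧ c * cnt2 (ChN p K) X ≤ cnt2 {x | x ∈ ChF p K ∧ x ∈ G} X)

end Pool.Agent.Helper38.ND
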